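import Mathlib.Data.Finset.Powerset
import Mathlib.Data.Fintype.Powerset
import Mathlib.Data.Fintype.Card
import Mathlib.Data.Fintype.BigOperators
import Mathlib.Data.Finset.Sum
import Mathlib.Data.Real.Basic
import Mathlib.Algebra.BigOperators.Fin
import Mathlib.Algebra.Order.BigOperators.Group.Finset
import Mathlib.Data.Fintype.Sum
import Mathlib.Logic.Equiv.Finset
import Mathlib.Tactic

set_option autoImplicit false

/-!
# MP_2b3591_co : `m(k, k-1)` grows exponentially
-/

namespace Pool.Agent.Results.MP_2b3591_co.Exponential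

open Finset

/-- `k`-uniform intersecting family on a finite type, every set with fewer than `k` elements being
disjoint from at least `M` members. -/
def Good (k M : ℕ) : Prop :=
  ∃ (α : Type) (_ : Fintype α) (_ : DecidableEq α) (F : Finset (Finset α)),
    (∀ A ∈ F, A.card = k) ∧ (∀ A ∈ F, ∀ A' ∈ F, ¬ Disjoint A A') ∧
    ∀ B : Finset α, B.card < k → M ≤ (F.filter (fun A => Disjoint A B)).card

/-- the triangle -/
lemma good_two : Good 2 1 := by
  refine ⟨Fin 3, inferInstance, inferInstance,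
    (univ : Finset (Fin 3)).image (fun i => ({i, i + 1} : Finset (Fin 3))), ?_, ?_, ?_⟩
  · decide
  · decide
  · decide

/-- the Fano plane -/
lemma good_three : Good 3 2 := by
  refine ⟨Fin 7, inferInstance, inferInstance,
    (univ : Finset (Fin 7)).image (fun i => ({i, i + 1, i + 3} : Finset (Fin 7))), ?_, ?_, ?_⟩
  · decide +kernel
  · decide +kernel
  · decide +kernel

/-- lines of the projective plane of order 3 -/
def L (i : Fin 13) : Finset (Fin 13) := {i, i + 1, i + 3, i + 9}

lemma L_inj : ∀ i j : Fin 13, L i = L j → i = j := by decide +kernel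

lemma L_card : ∀ i : Fin 13, (L i).card = 4 := by decide +kernel

lemma L_meet : ∀ i j : Fin 13, ¬ Disjoint (L i) (L j) := by decide +kernel

lemma L_avoid : ∀ a b c : Fin 13,
    2 ≤ (univ.filter (fun i => a ∉ L i ∧ b ∉ L i ∧ c ∉ L i)).card := by decide +kernel

lemma good_four : Good 4 2 := by
  refine ⟨Fin 13, inferInstance, inferInstance, univ.image L, ?_, ?_, ?_⟩
  · intro A hA
    obtain ⟨i, -, rfl⟩ := mem_image.1 hA
    exact L_card i
  · intro A hA A' hA'
    obtain ⟨i, -, rfl⟩ := mem_image.1 hA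
    obtain ⟨j, -, rfl⟩ := mem_image.1 hA'
    exact L_meet i j
  · intro B hB
    obtain ⟨B', hBB, hB'⟩ := exists_superset_card_eq (s := B) (n := 3) (by omega)
      (by rw [Fintype.card_fin]; omega)
    obtain ⟨a, b, c, -, -, -, rfl⟩ := card_eq_three.1 hB'
    refine (L_avoid a b c).trans ?_
    refine card_le_card_of_injOn L ?_ ?_
    · intro i hi
      rw [mem_coe, mem_filter] at hi
      rw [mem_coe, mem_filter]
      refine ⟨mem_image_of_mem _ (mem_univ _), ?_⟩
      rw [disjoint_left]
      intro x hx hxB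
      have := hBB hxB
      rw [mem_insert, mem_insert, mem_singleton] at this
      rcases this with rfl | rfl | rfl
      · exact hi.2.1 hx
      · exact hi.2.2.1 hx
      · exact hi.2.2.2 hx
    · intro i _ j _ h
      exact L_inj i j h

/-- number of transversals of `k` rows of size 3 avoiding two points -/
lemma transversals (k : ℕ) (hk : 1 ≤ k) (B : Finset (Fin k × Fin 3)) (hB : B.card < 3) :
    3 ^ (k - 1) ≤ (univ.filter (fun f : Fin k → Fin 3 => ∀ i, (i, f i) ∉ B)).card := by
  classical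
  have h1 : univ.filter (fun f : Fin k → Fin 3 => ∀ i, (i, f i) ∉ B) =
      Fintype.piFinset (fun i => univ.filter (fun j => (i, j) ∉ B)) := by
    ext f
    rw [mem_filter, Fintype.mem_piFinset]
    constructor
    · intro h i
      rw [mem_filter]
      exact ⟨mem_univ _, h.2 i⟩
    · intro h
      exact ⟨mem_univ _, fun i => (mem_filter.1 (h i)).2⟩
  rw [h1, Fintype.card_piFinset]
  have hx : ∀ i, (univ.filter (fun j : Fin 3 => (i, j) ∉ B)).card +
      (B.filter (fun p => p.1 = i)).card = 3 := by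
    intro i
    have h2 : (B.filter (fun p => p.1 = i)).card =
        (univ.filter (fun j : Fin 3 => (i, j) ∈ B)).card := by
      refine card_bij' (fun p _ => p.2) (fun j _ => (i, j)) ?_ ?_ ?_ ?_
      · rintro ⟨p, q⟩ hp
        rw [mem_filter] at hp ⊢
        obtain ⟨hp1, rfl⟩ := hp
        exact ⟨mem_univ _, hp1⟩
      · intro j hj
        rw [mem_filter] at hj ⊢
        exact ⟨hj.2, rfl⟩
      · rintro ⟨p, q⟩ hp
        rw [mem_filter] at hp
        obtain ⟨hp1, rfl⟩ := hp
        rfl
      · intro j hj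
        rfl
    rw [h2, add_comm, card_filter_add_card_filter_not, card_univ, Fintype.card_fin]
  have hsum : ∑ i : Fin k, (B.filter (fun p => p.1 = i)).card = B.card := by
    rw [← card_eq_sum_card_fiberwise (f := fun p : Fin k × Fin 3 => p.1) (s := B)
      (t := univ) (fun _ _ => by simp)]
  have hle : ∀ i, (B.filter (fun p => p.1 = i)).card ≤ 2 := by
    intro i
    have := card_filter_le B (fun p => p.1 = i)
    omega
  have key : 9 ^ k ≤ (∏ i : Fin k, (univ.filter (fun j : Fin 3 => (i, j) ∉ B)).card) ^ 2 *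
      3 ^ B.card := by
    rw [← hsum, ← prod_pow_eq_pow_sum, ← prod_pow, ← prod_mul_distrib]
    have : (9 : ℕ) ^ k = ∏ _i : Fin k, 9 := by simp
    rw [this]
    refine prod_le_prod' ?_
    intro i _
    have h2 := hx i
    have h3 := hle i
    generalize (B.filter (fun p => p.1 = i)).card = y at *
    have h4 : (univ.filter (fun j : Fin 3 => (i, j) ∉ B)).card = 3 - y := by omega
    rw [h4]
    interval_cases y <;> norm_num
  generalize (∏ i : Fin k, (univ.filter (fun j : Fin 3 => (i, j) ∉ B)).card) = P at *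
  have h5 : (3 : ℕ) ^ B.card ≤ 9 := by
    calc (3 : ℕ) ^ B.card ≤ 3 ^ 2 := Nat.pow_le_pow_right (by norm_num) (by omega)
      _ = 9 := by norm_num
  have h6 : 9 ^ k ≤ P ^ 2 * 9 := key.trans (Nat.mul_le_mul_left _ h5)
  obtain ⟨k, rfl⟩ : ∃ m, k = m + 1 := ⟨k - 1, by omega⟩
  rw [Nat.add_sub_cancel]
  have h7 : (3 ^ k) ^ 2 ≤ P ^ 2 := by
    have : (9 : ℕ) ^ (k + 1) = (3 ^ k) ^ 2 * 9 := by
      rw [pow_succ, ← pow_mul, mul_comm k 2, pow_mul]
      norm_num
    rw [this] at h6
    exact Nat.le_of_mul_le_mul_right h6 (by norm_num)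
  exact (Nat.pow_le_pow_iff_left (by norm_num)).1 h7

section step

variable {α : Type} [Fintype α] [DecidableEq α]

/-- the trace of a set on the first part -/
def tr1 {β γ : Type} [DecidableEq β] [DecidableEq γ] (B : Finset (α ⊕ (β ⊕ γ))) : Finset α :=
  univ.filter (fun x => Sum.inl x ∈ B)

/-- the trace of a set on the second part -/
def tr2 {β γ : Type} [DecidableEq β] [DecidableEq γ] [Fintype β] (B : Finset (α ⊕ (β ⊕ γ))) : Finset β :=
  univ.filter (fun x => Sum.inr (Sum.inl x) ∈ B)

/-- the trace of a set on the third part -/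
def tr3 {β γ : Type} [DecidableEq β] [DecidableEq γ] [Fintype γ] (B : Finset (α ⊕ (β ⊕ γ))) : Finset γ :=
  univ.filter (fun x => Sum.inr (Sum.inr x) ∈ B)

lemma eq_disjSum {β γ : Type} [DecidableEq β] [DecidableEq γ] [Fintype β] [Fintype γ]
    (B : Finset (α ⊕ (β ⊕ γ))) : B = (tr1 B).disjSum ((tr2 B).disjSum (tr3 B)) := by
  ext x
  rcases x with x | x | x
  · rw [inl_mem_disjSum, tr1, mem_filter]
    simp
  · rw [inr_mem_disjSum, inl_mem_disjSum, tr2, mem_filter]
    simp
  · rw [inr_mem_disjSum, inr_mem_disjSum, tr3, mem_filter]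
    simp

omit [Fintype α] [DecidableEq α] in
lemma disj_iff {β γ : Type} [DecidableEq β] [DecidableEq γ]
    (A1 B1 : Finset α) (A2 B2 : Finset β) (A3 B3 : Finset γ) :
    Disjoint (A1.disjSum (A2.disjSum A3)) (B1.disjSum (B2.disjSum B3)) ↔
      Disjoint A1 B1 ∧ Disjoint A2 B2 ∧ Disjoint A3 B3 := by
  rw [disjoint_left, disjoint_left, disjoint_left, disjoint_left]
  constructor
  · intro h
    refine ⟨fun x hx hx' => ?_, fun x hx hx' => ?_, fun x hx hx' => ?_⟩
    · exact h (a := Sum.inl x) (by simpa using hx) (by simpa using hx')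
    · exact h (a := Sum.inr (Sum.inl x)) (by simpa using hx) (by simpa using hx')
    · exact h (a := Sum.inr (Sum.inr x)) (by simpa using hx) (by simpa using hx')
  · rintro ⟨h1, h2, h3⟩ x hx hx'
    rcases x with x | x | x
    · exact h1 (by simpa using hx) (by simpa using hx')
    · exact h2 (by simpa using hx) (by simpa using hx')
    · exact h3 (by simpa using hx) (by simpa using hx')

end step

/-- row `i` of the grid -/
def row (k : ℕ) (i : Fin k) : Finset (Fin k × Fin 3) := univ.filter (fun p => p.1 = i)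

/-- the graph of `f` -/
def gr (k : ℕ) (f : Fin k → Fin 3) : Finset (Fin k × Fin 3) := univ.filter (fun p => f p.1 = p.2)

lemma mem_row {k : ℕ} {i : Fin k} {p : Fin k × Fin 3} : p ∈ row k i ↔ p.1 = i := by
  rw [row, mem_filter]; simp

lemma mem_gr {k : ℕ} {f : Fin k → Fin 3} {p : Fin k × Fin 3} : p ∈ gr k f ↔ f p.1 = p.2 := by
  rw [gr, mem_filter]; simp

lemma card_row (k : ℕ) (i : Fin k) : (row k i).card = 3 := by
  have : row k i = (univ : Finset (Fin 3)).image (fun j => (i, j)) := by
    ext ⟨a, b⟩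
    rw [mem_row, mem_image]
    constructor
    · intro h
      exact ⟨b, mem_univ _, by rw [← h]⟩
    · rintro ⟨j, -, h⟩
      exact (congrArg Prod.fst h).symm
  rw [this, card_image_of_injective, card_univ, Fintype.card_fin]
  intro x y h
  exact congrArg Prod.snd h

lemma card_gr (k : ℕ) (f : Fin k → Fin 3) : (gr k f).card = k := by
  have : gr k f = (univ : Finset (Fin k)).image (fun i => (i, f i)) := by
    ext ⟨a, b⟩
    rw [mem_gr, mem_image]
    constructor
    · intro h
      have h' : f a = b := h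
      exact ⟨a, mem_univ _, by rw [h']⟩
    · rintro ⟨j, -, h⟩
      obtain ⟨rfl, rfl⟩ := Prod.mk.inj h
      rfl
  rw [this, card_image_of_injective, card_univ, Fintype.card_fin]
  intro x y h
  exact congrArg Prod.fst h

lemma gr_inj (k : ℕ) (f g : Fin k → Fin 3) (h : gr k f = gr k g) : f = g := by
  funext i
  have : (i, f i) ∈ gr k f := mem_gr.2 rfl
  rw [h, mem_gr] at this
  exact this.symm

lemma row_inj (k : ℕ) (i j : Fin k) (h : row k i = row k j) : i = j := by
  have : (i, (0 : Fin 3)) ∈ row k i := mem_row.2 rfl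
  rw [h, mem_row] at this
  exact this

lemma row_gr (k : ℕ) (i : Fin k) (f : Fin k → Fin 3) : ¬ Disjoint (row k i) (gr k f) := by
  rw [disjoint_left]
  intro h
  exact h (a := (i, f i)) (mem_row.2 rfl) (mem_gr.2 rfl)

/-- number of rows avoiding `B` -/
lemma rows_avoid (k : ℕ) (B : Finset (Fin k × Fin 3)) :
    k ≤ (univ.filter (fun i : Fin k => Disjoint (row k i) B)).card + B.card := by
  have h1 : (univ.filter (fun i : Fin k => ¬ Disjoint (row k i) B)).card ≤ B.card := by
    refine (card_le_card (t := B.image Prod.fst) ?_).trans card_image_le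
    intro i hi
    rw [mem_filter, disjoint_left] at hi
    have h2 := hi.2
    push Not at h2
    obtain ⟨p, hp, hpB⟩ := h2
    rw [mem_image]
    exact ⟨p, hpB, mem_row.1 hp⟩
  have h2 := card_filter_add_card_filter_not (s := (univ : Finset (Fin k)))
    (fun i => Disjoint (row k i) B)
  rw [card_univ, Fintype.card_fin] at h2
  omega

/-- a family which avoids every set with fewer than `k ≥ 2` elements at least `M` times has at
least `2 M` members -/
lemma total {α : Type} [DecidableEq α] {k M : ℕ} (hk : 2 ≤ k) (F : Finset (Finset α))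
    (hu : ∀ A ∈ F, A.card = k) (hi : ∀ A ∈ F, ∀ A' ∈ F, ¬ Disjoint A A')
    (hM : ∀ B : Finset α, B.card < k → M ≤ (F.filter (fun A => Disjoint A B)).card) :
    2 * M ≤ F.card := by
  rcases F.eq_empty_or_nonempty with h | ⟨A, hA⟩
  · subst h
    have := hM ∅ (by rw [card_empty]; omega)
    rw [filter_empty, card_empty] at this
    omega
  · have hAk := hu A hA
    obtain ⟨x, hx⟩ : A.Nonempty := card_pos.1 (by omega)
    have h1 := hM {x} (by rw [card_singleton]; omega)
    have h2 := hM (A.erase x) (by rw [card_erase_of_mem hx]; omega)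
    have h3 : Disjoint (F.filter (fun A => Disjoint A {x}))
        (F.filter (fun A' => Disjoint A' (A.erase x))) := by
      rw [disjoint_left]
      intro C hC hC'
      rw [mem_filter] at hC hC'
      apply hi C hC.1 A hA
      rw [disjoint_left]
      intro y hy hyA
      by_cases hyx : y = x
      · subst hyx
        exact (disjoint_singleton_right.1 hC.2) hy
      · exact (disjoint_left.1 hC'.2) hy (mem_erase.2 ⟨hyx, hyA⟩)
    have h4 : (F.filter (fun A => Disjoint A {x}) ∪
        F.filter (fun A' => Disjoint A' (A.erase x))).card ≤ F.card :=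
      card_le_card (union_subset (filter_subset _ _) (filter_subset _ _))
    rw [card_union_of_disjoint h3] at h4
    omega

/-- The composition step. -/
lemma step {k M : ℕ} (hk : 2 ≤ k) (hM3 : M ≤ 3 ^ (k - 1)) (h : Good k M) :
    Good (k + 3) (2 * M) := by
  classical
  obtain ⟨α, _, _, F1, hu1, hi1, hB1⟩ := good_three
  obtain ⟨β, _, _, F2, hu2, hi2, hB2⟩ := h
  let E1 : Finset α × Finset β → Finset (α ⊕ (β ⊕ (Fin k × Fin 3))) :=
    fun p => p.1.disjSum (p.2.disjSum ∅)
  let E2 : Finset α × (Fin k → Fin 3) → Finset (α ⊕ (β ⊕ (Fin k × Fin 3))) :=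
    fun p => p.1.disjSum ((∅ : Finset β).disjSum (gr k p.2))
  let E3 : Finset β × Fin k → Finset (α ⊕ (β ⊕ (Fin k × Fin 3))) :=
    fun p => (∅ : Finset α).disjSum (p.1.disjSum (row k p.2))
  let F : Finset (Finset (α ⊕ (β ⊕ (Fin k × Fin 3)))) :=
    (F1 ×ˢ F2).image E1 ∪ ((F1 ×ˢ univ).image E2 ∪ (F2 ×ˢ univ).image E3)
  have hmem : ∀ A ∈ F, (∃ A1 ∈ F1, ∃ A2 ∈ F2, A = E1 (A1, A2)) ∨
      (∃ A1 ∈ F1, ∃ f, A = E2 (A1, f)) ∨ (∃ A2 ∈ F2, ∃ i, A = E3 (A2, i)) := by
    intro A hA
    rcases mem_union.1 hA with hA | hA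
    · obtain ⟨⟨a, b⟩, hp, rfl⟩ := mem_image.1 hA
      rw [mem_product] at hp
      exact Or.inl ⟨a, hp.1, b, hp.2, rfl⟩
    · rcases mem_union.1 hA with hA | hA
      · obtain ⟨⟨a, b⟩, hp, rfl⟩ := mem_image.1 hA
        rw [mem_product] at hp
        exact Or.inr (Or.inl ⟨a, hp.1, b, rfl⟩)
      · obtain ⟨⟨a, b⟩, hp, rfl⟩ := mem_image.1 hA
        rw [mem_product] at hp
        exact Or.inr (Or.inr ⟨a, hp.1, b, rfl⟩)
  refine ⟨α ⊕ (β ⊕ (Fin k × Fin 3)), inferInstance, inferInstance, F, ?_, ?_, ?_⟩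
  · intro A hA
    rcases hmem A hA with ⟨a, ha, b, hb, rfl⟩ | ⟨a, ha, f, rfl⟩ | ⟨b, hb, i, rfl⟩
    · simp only [E1, card_disjSum, card_empty]
      rw [hu1 a ha, hu2 b hb]
      omega
    · simp only [E2, card_disjSum, card_empty]
      rw [hu1 a ha, card_gr]
      omega
    · simp only [E3, card_disjSum, card_empty]
      rw [hu2 b hb, card_row]
      omega
  · intro A hA A' hA'
    rcases hmem A hA with ⟨a, ha, b, hb, rfl⟩ | ⟨a, ha, f, rfl⟩ | ⟨b, hb, i, rfl⟩ <;>
    rcases hmem A' hA' with ⟨a', ha', b', hb', rfl⟩ | ⟨a', ha', f', rfl⟩ | ⟨b', hb', i', rfl⟩ <;>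
    simp only [E1, E2, E3, disj_iff] <;> rintro ⟨h1, h2, h3⟩
    · exact hi1 a ha a' ha' h1
    · exact hi1 a ha a' ha' h1
    · exact hi2 b hb b' hb' h2
    · exact hi1 a ha a' ha' h1
    · exact hi1 a ha a' ha' h1
    · exact row_gr k i' f h3.symm
    · exact hi2 b hb b' hb' h2
    · exact row_gr k i f' h3
    · exact hi2 b hb b' hb' h2
  · intro B hB
    rw [eq_disjSum B, card_disjSum, card_disjSum] at hB
    rw [eq_disjSum B]
    generalize tr1 B = B1 at *
    generalize tr2 B = B2 at *
    generalize tr3 B = B3 at *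
    by_cases hb1 : B1.card < 3
    · by_cases hb2 : B2.card < k
      · -- first type
        have h1 := hB1 B1 hb1
        have h2 := hB2 B2 hb2
        refine (Nat.mul_le_mul h1 h2).trans ?_
        rw [← card_product]
        refine card_le_card_of_injOn E1 ?_ ?_
        · rintro ⟨a, b⟩ hp
          rw [mem_coe, mem_product, mem_filter, mem_filter] at hp
          rw [mem_coe, mem_filter]
          refine ⟨mem_union_left _ (mem_image_of_mem _ (mem_product.2 ⟨hp.1.1, hp.2.1⟩)), ?_⟩
          simp only [E1, disj_iff]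
          exact ⟨hp.1.2, hp.2.2, disjoint_empty_left _⟩
        · rintro ⟨a, b⟩ _ ⟨a', b'⟩ _ hab
          simp only [E1, disjSum_inj] at hab
          exact Prod.ext hab.1 hab.2.1
      · -- second type
        have h1 := hB1 B1 hb1
        have h2 := transversals k (by omega) B3 (by omega)
        refine (Nat.mul_le_mul h1 (hM3.trans h2)).trans ?_
        rw [← card_product]
        refine card_le_card_of_injOn E2 ?_ ?_
        · rintro ⟨a, f⟩ hp
          rw [mem_coe, mem_product, mem_filter, mem_filter] at hp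
          rw [mem_coe, mem_filter]
          refine ⟨mem_union_right _ (mem_union_left _
            (mem_image_of_mem _ (mem_product.2 ⟨hp.1.1, mem_univ _⟩))), ?_⟩
          simp only [E2, disj_iff]
          refine ⟨hp.1.2, disjoint_empty_left _, ?_⟩
          rw [disjoint_left]
          rintro ⟨i, j⟩ hij hijB
          rw [mem_gr] at hij
          have hij' : f i = j := hij
          subst hij'
          exact hp.2.2 i hijB
        · rintro ⟨a, b⟩ _ ⟨a', b'⟩ _ hab
          simp only [E2, disjSum_inj] at hab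
          exact Prod.ext hab.1 (gr_inj k _ _ hab.2.2)
    · -- third type
      have h1 := rows_avoid k B3
      have hcount : 2 * M ≤ (F2.filter (fun A => Disjoint A B2)).card *
          (univ.filter (fun i : Fin k => Disjoint (row k i) B3)).card := by
        by_cases hb3 : B3.card + 2 ≤ k
        · have h2 := hB2 B2 (by omega)
          rw [mul_comm]
          exact Nat.mul_le_mul h2 (by omega)
        · have hB2e : B2 = ∅ := card_eq_zero.1 (by omega)
          subst hB2e
          have h2 := total hk F2 hu2 hi2 hB2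
          have h3 : F2.filter (fun A => Disjoint A ∅) = F2 :=
            filter_true_of_mem (fun A _ => disjoint_empty_right _)
          rw [h3]
          calc 2 * M = 2 * M * 1 := (mul_one _).symm
            _ ≤ _ := Nat.mul_le_mul h2 (by omega)
      refine hcount.trans ?_
      rw [← card_product]
      refine card_le_card_of_injOn E3 ?_ ?_
      · rintro ⟨b, i⟩ hp
        rw [mem_coe, mem_product, mem_filter, mem_filter] at hp
        rw [mem_coe, mem_filter]
        refine ⟨mem_union_right _ (mem_union_right _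
          (mem_image_of_mem _ (mem_product.2 ⟨hp.1.1, mem_univ _⟩))), ?_⟩
        simp only [E3, disj_iff]
        exact ⟨disjoint_empty_left _, hp.1.2, hp.2.2⟩
      · rintro ⟨a, b⟩ _ ⟨a', b'⟩ _ hab
        simp only [E3, disjSum_inj] at hab
        exact Prod.ext hab.2.1 (row_inj k _ _ hab.2.2)

lemma pow_bound (k : ℕ) (hk : 1 ≤ k) : 2 ^ (k / 3) ≤ 3 ^ (k - 1) := by
  calc 2 ^ (k / 3) ≤ 3 ^ (k / 3) := Nat.pow_le_pow_left (by norm_num) _
    _ ≤ 3 ^ (k - 1) := Nat.pow_le_pow_right (by norm_num) (by omega)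

lemma good_all (k : ℕ) : 2 ≤ k → Good k (2 ^ (k / 3)) := by
  induction k using Nat.strong_induction_on with
  | _ k ih =>
    intro hk
    rcases (by omega : k = 2 ∨ k = 3 ∨ k = 4 ∨ 5 ≤ k) with rfl | rfl | rfl | h5
    · exact good_two
    · exact good_three
    · exact good_four
    · obtain ⟨j, rfl⟩ : ∃ j, k = j + 3 := ⟨k - 3, by omega⟩
      have hj : 2 ≤ j := by omega
      have h1 := step hj (pow_bound j (by omega)) (ih j (by omega) hj)
      have h2 : (j + 3) / 3 = j / 3 + 1 := by omega
      rw [h2, pow_succ, mul_comm]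
      exact h1

/-- Transfer to `[n]`. -/
lemma transfer {k M : ℕ} (h : Good k M) : ∃ n : ℕ, ∃ F : Finset (Finset (Fin n)),
    (∀ A ∈ F, A.card = k) ∧ (∀ A ∈ F, ∀ A' ∈ F, (A ∩ A').Nonempty) ∧
    ∀ B : Finset (Fin n), B.card < k → M ≤ (F.filter (fun A => A ∩ B = ∅)).card := by
  classical
  obtain ⟨α, _, _, F, hu, hi, hB⟩ := h
  let e : α ≃ Fin (Fintype.card α) := Fintype.equivFin α
  refine ⟨Fintype.card α, F.image (fun A => A.map e.toEmbedding), ?_, ?_, ?_⟩
  · intro A hA
    obtain ⟨a, ha, rfl⟩ := mem_image.1 hA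
    rw [card_map]
    exact hu a ha
  · intro A hA A' hA'
    obtain ⟨a, ha, rfl⟩ := mem_image.1 hA
    obtain ⟨a', ha', rfl⟩ := mem_image.1 hA'
    rw [← not_disjoint_iff_nonempty_inter, disjoint_map]
    exact hi a ha a' ha'
  · intro B hBk
    have h1 := hB (B.map e.symm.toEmbedding) (by rw [card_map]; exact hBk)
    refine h1.trans (card_le_card_of_injOn (fun A => A.map e.toEmbedding) ?_ ?_)
    · intro A hA
      rw [mem_coe, mem_filter] at hA
      rw [mem_coe, mem_filter]
      refine ⟨mem_image_of_mem _ hA.1, ?_⟩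
      rw [← disjoint_iff_inter_eq_empty, disjoint_left]
      intro x hx hxB
      rw [mem_map] at hx
      obtain ⟨y, hy, rfl⟩ := hx
      refine (disjoint_left.1 hA.2) hy ?_
      rw [mem_map]
      exact ⟨e y, hxB, by simp⟩
    · intro A _ A' _ h
      exact map_injective _ h

/-- `F` is an intersecting family of `k`-element subsets of `[n]` with covering number `k`. -/
def IntersectingOfCoverNumber (n k : ℕ) (F : Finset (Finset (Fin n))) : Prop :=
  (∀ A ∈ F, A.card = k) ∧ (∀ A ∈ F, ∀ A' ∈ F, (A ∩ A').Nonempty) ∧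
    IsLeast {t : ℕ | ∃ T : Finset (Fin n), T.card = t ∧ ∀ A ∈ F, (T ∩ A).Nonempty} k

theorem result : ∃ c : ℝ, 1 < c ∧ ∀ k : ℕ, 3 ≤ k →
    ∃ n : ℕ, ∃ F : Finset (Finset (Fin n)), IntersectingOfCoverNumber n k F ∧
      ∀ B : Finset (Fin n), B.card = k - 1 →
        c ^ k < ((F.filter (fun A => A ∩ B = ∅)).card : ℝ) := by
  refine ⟨11 / 10, by norm_num, ?_⟩
  intro k hk
  obtain ⟨n, F, hu, hi, hB⟩ := transfer (good_all k (by omega))
  have hpos : 1 ≤ 2 ^ (k / 3) := Nat.one_le_two_pow
  refine ⟨n, F, ⟨hu, hi, ⟨?_, ?_⟩⟩, ?_⟩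
  · have h0 := hB ∅ (by rw [card_empty]; omega)
    obtain ⟨A, hA⟩ := card_pos.1 (lt_of_lt_of_le hpos h0)
    rw [mem_filter] at hA
    exact ⟨A, hu A hA.1, fun A' hA' => hi A hA.1 A' hA'⟩
  · rintro t ⟨T, rfl, hT⟩
    by_contra hcon
    obtain ⟨A, hA⟩ := card_pos.1 (lt_of_lt_of_le hpos (hB T (by omega)))
    rw [mem_filter] at hA
    have := hT A hA.1
    rw [inter_comm, hA.2] at this
    exact not_nonempty_empty this
  · intro B hBk
    have h1 := hB B (by omega)
    have h2 : ((2 ^ (k / 3) : ℕ) : ℝ) ≤ ((F.filter (fun A => A ∩ B = ∅)).card : ℝ) := by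
      exact_mod_cast h1
    refine lt_of_lt_of_le ?_ h2
    push_cast
    obtain ⟨q, r, hr, rfl⟩ : ∃ q r : ℕ, r < 3 ∧ k = 3 * (q + 1) + r :=
      ⟨k / 3 - 1, k % 3, by omega, by omega⟩
    have h3 : (3 * (q + 1) + r) / 3 = q + 1 := by omega
    rw [h3, pow_add, pow_mul]
    have h4 : ((11 / 10 : ℝ)) ^ r ≤ 121 / 100 := by
      interval_cases r <;> norm_num
    have h5 : ((11 / 10 : ℝ) ^ 3) ^ (q + 1) ≤ (1331 / 1000) * 2 ^ q := by
      rw [pow_succ, mul_comm]
      have : ((11 / 10 : ℝ) ^ 3) ^ q ≤ 2 ^ q := by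
        apply pow_le_pow_left₀ (by positivity)
        norm_num
      have h6 : ((11 / 10 : ℝ) ^ 3) = 1331 / 1000 := by norm_num
      calc (11 / 10 : ℝ) ^ 3 * ((11 / 10 : ℝ) ^ 3) ^ q ≤ (11 / 10 : ℝ) ^ 3 * 2 ^ q := by
            apply mul_le_mul_of_nonneg_left this (by positivity)
        _ = _ := by rw [h6]
    have h7 : (0 : ℝ) < 2 ^ q := by positivity
    calc ((11 / 10 : ℝ) ^ 3) ^ (q + 1) * (11 / 10 : ℝ) ^ r
        ≤ ((1331 / 1000) * 2 ^ q) * (121 / 100) := by
          apply mul_le_mul h5 h4 (by positivity) (by positivity)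
      _ < 2 ^ (q + 1) := by
          rw [pow_succ]
          nlinarith

end Pool.Agent.Results.MP_2b3591_co.Exponential
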